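import Pool.Agent.Helper55.AV.Fin2

/-!
# MP_6cbef8_nt: all abelian varieties at the same time, and the existence of `A_f`

`(V v)` is a family of two-dimensional representations of a profinite group `G` over completions `E v`
of a number field `M` with adelically open image (in the application `G` is the Galois group of a
number field `F` and `V v` is the `v`-adic representation of a newform `f` without complex
multiplication).  For every `i` in a countable set, `T i = (T i l)_l` is a family of representations
over the `ℚ_l`, `l` prime: the Tate modules of ALL abelian varieties `B i` over `F`, up to isogeny.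
`r k` is a Frobenius element at the `k`-th prime of `F`, `f k` and `g i k` are the characteristic
polynomials of `r k` on `V` and on `T i`, `q k` is the norm of the prime.  `μ` is the Haar measure.
The following are equivalent.

(1), (2) `V v` is potentially contained in `T i`, for some `i` and one or every place `v` (so that the
abelian variety `A_f` exists, as a factor of `B i` over a finite extension).

(3) For every set `D` of primes of density one there is ONE `i` such that for infinitely many primes in
`D` a power of a root of `f k` is a product of roots of `g i k` and inverses of such roots (this holds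
if the Weil number of `f` belongs to the tensor category generated by the reduction of `B i`).
So if `A_f` does not exist, then there is a set `D` of primes of density one such that for EVERY
abelian variety this happens for finitely many primes in `D` only.

(4) For some `n`, a set of `n`-tuples of elements of `G` which is not null consists of tuples `s` which
are not generic for some `i` and `v`: the entries `(0, 0)`, `(0, 1)`, `(1, 0)` of the matrices
`V v (s 1)`, ..., `V v (s n)` are algebraically dependent over the ring generated by the determinants
of these matrices and the entries of the matrices of the `s m` and `(s m)⁻¹` on `T i (ℓ v)`.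
So if `A_f` does not exist, then for almost all `n`-tuples `s` of elements of the Galois group, for
all places `v` and all abelian varieties `B` over `F`, the matrices of `s 1`, ..., `s n` in the `v`-adic
representation of `f` are generic matrices, given their determinants, over the field generated by the
entries of the matrices of `s 1`, ..., `s n` on `T_l B`, where `v` divides `l`.

(5) The same modulo the maximal ideals: for some `n` and some weights `w v ≥ 0` with
`∑ w v / ℓ v < ∞` there is a set of `n`-tuples `s` which is not null such that for some `i` and some
algebraic relation `Q` as in (4) the sum of the `w v` over the places `v` where it holds modulo the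
maximal ideal of `E v` (and is not trivial there) is infinite.
So if `A_f` does not exist, then for almost all `s` every such relation holds modulo the maximal
ideals only for a sparse set of places (for example the sum of the `(ℓ v)⁻ᵉ` over these places is
finite for every `e > 0`, as the number of places over a prime is bounded).
-/

set_option autoImplicit false
open NumberField Polynomial MeasureTheory Filter Pool.Agent.Helper37.Af Pool.Agent.Helper37.Fd
  Pool.Agent.Helper37.Ad Pool.Agent.Helper37.Ub Pool.Agent.Helper55.AV

namespace Pool.Agent.Results.MP_6cbef8_nt.AllVarieties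

theorem result
    -- the field of coefficients
    {M : Type} [Field M] [NumberField M]
    -- infinitely many places `v` of residue characteristic `ℓ v`, finitely many for every prime
    {Λ : Type} [Infinite Λ] (ℓ : Λ → ℕ) [∀ v, Fact (ℓ v).Prime] (hℓ : ∀ l, {v | ℓ v = l}.Finite)
    -- the local fields `E v`, of bounded degree over `ℚ_(ℓ v)`, with embeddings of `M`
    (E : Λ → Type) [∀ v, NontriviallyNormedField (E v)] [∀ v, IsUltrametricDist (E v)]
    [∀ v, NormedAlgebra ℚ_[ℓ v] (E v)] [∀ v, FiniteDimensional ℚ_[ℓ v] (E v)] (a : ℕ)
    (ha : ∀ v, Module.finrank ℚ_[ℓ v] (E v) ≤ a) (j : ∀ v, M →+* E v)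
    -- a profinite group with Haar measure `μ`
    {G : Type} [Group G] [TopologicalSpace G] [IsTopologicalGroup G] [CompactSpace G]
    [TotallyDisconnectedSpace G] [MeasurableSpace G] [BorelSpace G] (μ : Measure G)
    [μ.IsHaarMeasure]
    -- integral two-dimensional representations over the `E v` with adelically open image
    (V : ∀ v, G →* GL (Fin 2) (E v)) (hV : ∀ v, Continuous (V v))
    (hVi : ∀ v x s t, ‖(V v x : Matrix (Fin 2) (Fin 2) (E v)) s t‖ ≤ 1)
    (hopen : AdelicallyOpen ⊤ V)
    -- countably many systems of representations over the `ℚ_l`, for all primes `l`, of unbounded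
    -- dimensions, with finite extensions `F i v` of the `E v`
    {ι : Type} [Countable ι]
    (F : ι → Λ → Type) [∀ i v, NontriviallyNormedField (F i v)]
    [∀ i v, IsUltrametricDist (F i v)] [∀ i v, NormedAlgebra ℚ_[ℓ v] (F i v)]
    [∀ i v, FiniteDimensional ℚ_[ℓ v] (F i v)] (φ : ∀ i v, E v →ₐ[ℚ_[ℓ v]] F i v)
    (d : ι → ℕ) (T : ∀ i (l : ℕ) [Fact l.Prime], G →* GL (Fin (d i)) ℚ_[l])
    (hT : ∀ i, IsSystem ℓ (φ i) V (T i))
    -- the Frobenius elements and their characteristic polynomials
    (r : ℕ → G) (hr : Equidistributed μ r) (f : ℕ → (𝓞 M)[X]) (g : ι → ℕ → (𝓞 M)[X])
    (hm : ∀ i, Matching ℓ j V (T i) r f (g i))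
    -- their roots are Weil numbers
    (q : ℕ → ℕ) (hq : ∀ k, ∃ p b : ℕ, p.Prime ∧ 0 < b ∧ b ≤ a ∧ q k = p ^ b)
    (hf : ∀ᶠ k in atTop, IsWeil (q k) (f k)) (hg : ∀ i, ∀ᶠ k in atTop, IsWeil (q k) (g i k)) :
    List.TFAE [
      -- (1) potential containment in one `T i`, at one place
      ∃ i v, ContainedAt ℓ (φ i) V (T i) v,
      -- (2) potential containment in one `T i`, at all places
      ∃ i, ∀ v, ContainedAt ℓ (φ i) V (T i) v,
      -- (3) multiplicative dependence at infinitely many primes of every set of density one
      ∀ D : Set ℕ, HasDensity D 1 → ∃ i, {k ∈ D | Dependent ((f k).map (algebraMap (𝓞 M) M))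
        ((g i k).map (algebraMap (𝓞 M) M))}.Infinite,
      -- (4) tuples with matrices which are not generic form a set which is not null
      ∃ n, (Measure.pi fun _ : Fin n => μ)
        {s : Fin n → G | ∃ i v, ¬ Generic ℓ V (T i) v s} ≠ 0,
      -- (5) relations modulo the maximal ideals, for many places and not a null set of tuples
      ∃ (n : ℕ) (w : Λ → NNReal), Summable (fun v => w v / ℓ v) ∧
        (Measure.pi fun _ : Fin n => μ) {s : Fin n → G | ∃ (i : ι) (Q : MatrixRelation n (d i)),
          ¬ Summable ({v | HoldsMod ℓ V (T i) Q v s}.indicator w)} ≠ 0] := by
  have h := all_varieties2 ℓ hℓ E a ha j μ V hV hVi hopen F φ d T hT r hr f g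
    (fun i => (hm i).1) (fun i => (hm i).2) q hq hf hg
  tfae_have 1 ↔ 2 := h.out 0 1
  tfae_have 1 ↔ 3 := h.out 0 3
  tfae_have 1 ↔ 4 := h.out 0 5
  tfae_have 1 ↔ 5 := h.out 0 6
  tfae_finish

end Pool.Agent.Results.MP_6cbef8_nt.AllVarieties
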