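import Pool.Agent.Helper37.Ff.Fin

/-!
# MP_6cbef8_nt: Frobenius fields and the existence of `A_f`

`(V v)` is a family of two-dimensional representations of a profinite group `G` over completions `E v`
of a number field `M` with adelically open image (in the application `G` is the Galois group of a
number field `F` and `V v` is the `v`-adic representation of a newform `f` without complex
multiplication), `T = (T l)_l` a family of representations over the `ℚ_l`, `l` prime (the Tate
modules of an abelian variety `B`), `f r` and `g r` are the Frobenius polynomials at `r`.  The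
splitting field of `f r` over `M` is the Frobenius field `M(√(a_v ^ 2 - 4 N v))` of the newform, the
splitting field of `g r` is generated by the Frobenius eigenvalues of `B`.  The following are
equivalent: (1), (2) `V v` is potentially contained in `T (ℓ v)`, for one or for every place `v` (so that
the abelian variety `A_f` exists, as a factor of `B` over a finite extension); (3) for the
elements `r` of an open subgroup the Frobenius field of `f r` lies in the splitting field of
`g r`; (4) there is a finite extension `L` of `M` such that the Frobenius field of `f r` lies in the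
splitting field of `g r` over `L` for a set of elements `r` whose closure has positive Haar
measure.  Only the fields are compared, there is no condition on the eigenvalues.
-/

set_option autoImplicit false
open NumberField Polynomial MeasureTheory Pool.Agent.Helper37.Af Pool.Agent.Helper37.Fd
  Pool.Agent.Helper37.Ad Pool.Agent.Helper37.Ub Pool.Agent.Helper37.Ff

namespace Pool.Agent.Results.MP_6cbef8_nt.FrobeniusFields

theorem result
    -- the field of coefficients
    {M : Type} [Field M] [NumberField M]
    -- places `v` of residue characteristic `ℓ v`, finitely many for every prime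
    {Λ : Type} [Nonempty Λ] (ℓ : Λ → ℕ) [∀ v, Fact (ℓ v).Prime] (hℓ : ∀ l, {v | ℓ v = l}.Finite)
    -- the local fields `E v`, of bounded degree over `ℚ_(ℓ v)`, with embeddings of `M`
    (E : Λ → Type) [∀ v, NontriviallyNormedField (E v)] [∀ v, IsUltrametricDist (E v)]
    [∀ v, NormedAlgebra ℚ_[ℓ v] (E v)] [∀ v, FiniteDimensional ℚ_[ℓ v] (E v)] (a : ℕ)
    (ha : ∀ v, Module.finrank ℚ_[ℓ v] (E v) ≤ a) (j : ∀ v, M →+* E v) (hj : Abundant j)
    -- finite extensions `F v` of the `E v`
    (F : Λ → Type) [∀ v, NontriviallyNormedField (F v)] [∀ v, IsUltrametricDist (F v)]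
    [∀ v, NormedAlgebra ℚ_[ℓ v] (F v)] [∀ v, FiniteDimensional ℚ_[ℓ v] (F v)]
    (φ : ∀ v, E v →ₐ[ℚ_[ℓ v]] F v)
    -- a profinite group with Haar measure `μ`
    {G : Type} [Group G] [TopologicalSpace G] [IsTopologicalGroup G] [CompactSpace G]
    [TotallyDisconnectedSpace G] [MeasurableSpace G] [BorelSpace G] (μ : Measure G)
    [μ.IsHaarMeasure]
    -- integral two-dimensional representations over the `E v` with adelically open image
    (V : ∀ v, G →* GL (Fin 2) (E v)) (hV : ∀ v, Continuous (V v))
    (hVi : ∀ v x s t, ‖(V v x : Matrix (Fin 2) (Fin 2) (E v)) s t‖ ≤ 1)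
    (hopen : AdelicallyOpen ⊤ V)
    -- a system of representations over the `ℚ_l`, for all primes `l`
    {d : ℕ} (T : ∀ (l : ℕ) [Fact l.Prime], G →* GL (Fin d) ℚ_[l]) (hT : IsSystem ℓ φ V T)
    -- the Frobenius polynomials
    (f g : G → (𝓞 M)[X]) (hD : AlmostMatching ℓ j V T f g) :
    List.TFAE [
      -- potential containment, at one place
      ∃ v, ContainedAt ℓ φ V T v,
      -- potential containment, at all places
      ∀ v, ContainedAt ℓ φ V T v,
      -- the Frobenius fields of `V` are contained in those of `T` on an open subgroup
      ∀ v, ∃ U : Subgroup G, IsOpen (U : Set G) ∧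
        ∀ r ∈ U, Matches ℓ E j V T f g v r → FieldIn M (f r) (g r),
      -- they are contained for a positive proportion of the elements, up to a fixed extension `L`
      ∃ (L : Type) (_ : Field L) (_ : Algebra M L) (_ : FiniteDimensional M L),
        OftenIn ℓ j V T μ L f g] :=
  frobenius_fields ℓ hℓ E a ha j hj F φ μ V hV hVi hopen T f g hT hD

end Pool.Agent.Results.MP_6cbef8_nt.FrobeniusFields
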