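import Pool.Agent.Helper37.Ub.Main

/-!
# MP_6cbef8_nt: a uniform adelic dichotomy for newforms and families of torsion fields

`n`, `a`, `q` are integers; there are numbers `K`, `N₀`, which depend on nothing else, with the
following property.  Let `(V v)` be a family of two-dimensional representations of a profinite group
`G` over the completions `E v` of a number field `M` (in the application `G` is the Galois group of
a number field and `V v` is the restriction of `ρ_f`, `f` of coefficient field `M`), with adelically
open image (for a newform without complex multiplication this is known: Serre, Ribet, Momose,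
Nekovar, Loeffler), and let `x ≥ N₀` be such that the image contains the product of the groups
`SL_2(O_v)` over all places `v` of residue characteristic larger than `x`.  Let `T i = (T i l)_l` be
ANY, possibly infinite, family of systems of representations over the `ℚ_l`, `l` prime, of dimension
`d i ≤ n` (the Tate modules of abelian varieties `B i`), which are comparable with `V`: there are
normal subgroups `N i` (generated by the inertia groups outside a finite set of places, which varies
with `i` and contains the bad places of `B i`) and sets `D i` of Frobenius elements which meet every
conjugacy class of every quotient of `G / N i` of order at most `K` and whose norms are bounded by a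
small power of `x` (by the effective Chebotarev theorem they exist if the product of the norms of
the bad places of `B i` is at most a constant times a power of `x`).  Then EITHER `V v` is
potentially contained in some `T i (ℓ v)` (over a finite extension `F v` of `E v`), for one and then
for every place `v`, and this happens as soon as ONE residual representation `V v` modulo the
maximal ideal, `x < ℓ v`, is seen by `T i (ℓ v)` modulo `ℓ v`, OR the elements of `G` on which ALL
`T i l` are trivial, for all `i` and `l` (the Galois group over the field generated by all torsion
points of all `B i`), have an image under `(V v)` which still contains the product of the groups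
`SL_2(O_v)` over all places `v` of residue characteristic larger than `x`; if there are finitely
many `i`, this image is also adelically open.
-/

set_option autoImplicit false
open NumberField Polynomial Pool.Agent.Helper37.Af Pool.Agent.Helper37.Fd Pool.Agent.Helper37.Ad
  Pool.Agent.Helper37.Ub

namespace Pool.Agent.Results.MP_6cbef8_nt.UniformAdelic

theorem result (n a q : ℕ) : ∃ K N₀ : ℕ,
    -- the field of coefficients
    ∀ {M : Type} [Field M] [NumberField M]
      -- infinitely many places `v` of residue characteristic `ℓ v`, finitely many for every prime
      {Λ : Type} [Infinite Λ] (ℓ : Λ → ℕ) [∀ v, Fact (ℓ v).Prime] (_ : ∀ l, {v | ℓ v = l}.Finite)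
      -- the local fields `E v`, of degree at most `a` over `ℚ_(ℓ v)`, with embeddings of `M`
      (E : Λ → Type) [∀ v, NontriviallyNormedField (E v)] [∀ v, IsUltrametricDist (E v)]
      [∀ v, NormedAlgebra ℚ_[ℓ v] (E v)] [∀ v, FiniteDimensional ℚ_[ℓ v] (E v)]
      (_ : ∀ v, Module.finrank ℚ_[ℓ v] (E v) ≤ a) (j : ∀ v, M →+* E v)
      -- finite extensions `F v` of the `E v`
      (F : Λ → Type) [∀ v, NontriviallyNormedField (F v)] [∀ v, IsUltrametricDist (F v)]
      [∀ v, NormedAlgebra ℚ_[ℓ v] (F v)] [∀ v, FiniteDimensional ℚ_[ℓ v] (F v)]
      (φ : ∀ v, E v →ₐ[ℚ_[ℓ v]] F v)
      -- a profinite group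
      {G : Type} [Group G] [TopologicalSpace G] [IsTopologicalGroup G] [CompactSpace G]
      [TotallyDisconnectedSpace G]
      -- integral two-dimensional representations over the `E v` with adelically open image, which
      -- contains the product of all `SL_2(O_v)` with `x < ℓ v`
      (V : ∀ v, G →* GL (Fin 2) (E v)) (_ : ∀ v, Continuous (V v))
      (_ : ∀ v y s t, ‖(V v y : Matrix (Fin 2) (Fin 2) (E v)) s t‖ ≤ 1)
      (_ : AdelicallyOpen ⊤ V) (x : ℕ) (_ : N₀ ≤ x) (_ : FullBeyond ℓ x ⊤ V)
      -- one place `v₀`, such that `F v₀` has at most `q` residue classes
      (v₀ : Λ) (_ : FewClasses q (F v₀))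
      -- ANY family `T i` of systems of representations over all `ℚ_l`
      (I : Type) (d : I → ℕ)
      (T : ∀ (i : I) (l : ℕ) [Fact l.Prime], G →* GL (Fin (d i)) ℚ_[l])
      (f : G → (𝓞 M)[X]) (g : I → G → (𝓞 M)[X]),
      (∀ i, d i ≤ n) → (∀ i, IsSystem ℓ φ V (T i)) →
      (∀ i, DenselyMatching ℓ j V (T i) f (g i)) →
      (∀ i, Comparable ℓ j V (T i) K x v₀ f (g i)) →
      List.TFAE [
        -- potential containment, at one place
        ∃ i v, ContainedAt ℓ φ V (T i) v,
        -- potential containment, at all places
        ∃ i, ∀ v, ContainedAt ℓ φ V (T i) v,
        -- residual containment, at one place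
        ∃ i v, x < ℓ v ∧ ScalarAt ℓ V (T i) v,
        -- the image of the common kernel of all `T i l` is not full beyond `x`
        ¬ FullBeyond ℓ x (⨅ i, commonKernel (T i)) V,
        -- it is not full beyond `x` and (for a finite family) adelically open
        ¬ (FullBeyond ℓ x (⨅ i, commonKernel (T i)) V ∧
          (Finite I → AdelicallyOpen (⨅ i, commonKernel (T i)) V))] :=
  uniform n a q

end Pool.Agent.Results.MP_6cbef8_nt.UniformAdelic
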