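import Pool.Agent.NLL.Resid
import Pool.Agent.NLL.Place
import Pool.Agent.UTF.Fam

/-!
# MP_6cbef8_nt: the torsion fields of all abelian varieties of bounded dimension and conductor

`E` is a finite extension of `ℚ_p` and `n`, `m` are integers.  There are numbers `K`, `N₀`, which
depend on nothing else, with the following property.  Let `G` be a profinite group (the absolute
Galois group of the base field `F`), `V` a strongly irreducible two-dimensional representation of
`G` over `E` (that of a newform), `M` a number field in `E` of degree at most `m`, `k` ONE residue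
field of `M` of characteristic `l` and order larger than `N₀`, `ρ` a representation of `G` over `k`
whose image contains a conjugate of `SL_2(F_l)` (the residual representation of the newform).  Let
`i ∈ I` be ANY, possibly infinite, family of indices (the pairs of an abelian variety `B` over `F`
of bounded dimension and a multiple `q` of `l`), `T i` a representation of dimension `d i ≤ n` over
`E` (the Tate module of `B`), `τ i` a representation over `ℤ/q` (the points of order `q` of `B`),
`N i` a closed normal subgroup on which `V` and `T i` are trivial (generated by the inertia groups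
outside a finite set `S` of places, which contains the bad places of `B`, and varies with `i`),
`D i` a subset which meets every conjugacy class of every quotient of `G / N i` of order at most
`K` (the Frobenius elements at the places whose norm is bounded by a power of the norm of `S`:
effective Chebotarev theorem).  Suppose that at the elements `r` of `D i` the characteristic
polynomials of `V`, `ρ` are the images of one polynomial `f r` over the integers of `M` and those of
`T i`, `τ i` (modulo `l`) the images of one polynomial `g i r`, with complex roots bounded by `c i`,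
and that the order of `k` is larger than `(2 (c i)²) ^ (2 (d i)² [M : ℚ])`.  Then `V` is potentially
contained in some `T i`, or the restriction of `ρ` to the intersection of ALL kernels of the `τ i`
(to the Galois group over the field generated by all these torsion points) is still irreducible with
image of order divisible by `l`.

The proof: if `ρ` is not scalar on the kernel of each `τ i` then by commutators and compactness it
is not scalar on their intersection, hence large there (`UTF.iInf_not_scalar`, `UTF.scalar_or_big`).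
If it is scalar on the kernel of `τ i`, the action of the kernel of the reduction of `τ i` modulo
`l` is scalar as well (`UTF.reduce`: normal subgroups of order prime to `l`, a metacyclic group
which is not a quotient of a tame linear group, commutators); so the ratio of the eigenvalues of
`ρ r` is a ratio of eigenvalues of `τ i r` modulo `l` (`NLL.residual`, log-linearity of
homomorphisms of linear groups over `F_l`), an equality of algebraic integers of bounded size modulo
a large prime, hence an equality; this polynomial relation holds on `D i`, hence on `G`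
(`UTF.det_rel`, where the constant does not see the group), and therefore `V` is potentially
contained in `T i` (`Helper37.Af`).
-/

set_option autoImplicit false
open MeasureTheory Polynomial NumberField Pool.Agent.Helper27.FM Pool.Agent.Helper37.Af
  Pool.Agent.Helper37.Fc

namespace Pool.Agent.Results.MP_6cbef8_nt.UniformTorsionFields

/-- the order of a residue field of characteristic `l` is at most `l ^ [M : ℚ]` -/
private theorem card_le {M : Type*} [Field M] [NumberField M] {k : Type*} [Field k] [Finite k]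
    (φ : 𝓞 M →+* k) (hφ : Function.Surjective φ) {l : ℕ} [hl : Fact l.Prime] [CharP k l] :
    Nat.card k ≤ l ^ Module.finrank ℚ M := by
  have h1 : Ideal.absNorm (RingHom.ker φ) = Nat.card k := by
    rw [Ideal.absNorm_apply, Submodule.cardQuot_apply]
    exact Nat.card_congr (RingHom.quotientKerEquivOfSurjective hφ).toEquiv
  have h2 : Ideal.span {((l : ℕ) : 𝓞 M)} ≤ RingHom.ker φ := by
    rw [Ideal.span_le, Set.singleton_subset_iff]
    show φ (l : 𝓞 M) = 0
    rw [map_natCast, CharP.cast_eq_zero]
  have h3 := Ideal.absNorm_dvd_absNorm_of_le h2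
  rw [h1, Ideal.absNorm_span_singleton] at h3
  have h4 : Algebra.norm ℤ ((l : ℕ) : 𝓞 M) = (l : ℤ) ^ Module.finrank ℚ M := by
    have h5 := Algebra.norm_algebraMap (S := 𝓞 M) ((l : ℕ) : ℤ)
    rw [RingOfIntegers.rank] at h5
    rw [← h5]
    simp
  rw [h4] at h3
  have h5 : ((l : ℤ) ^ Module.finrank ℚ M).natAbs = l ^ Module.finrank ℚ M := by
    rw [Int.natAbs_pow, Int.natAbs_natCast]
  rw [h5] at h3
  exact Nat.le_of_dvd (pow_pos hl.out.pos _) h3

/-- the image of `ρ` contains a conjugate of the group `SL_2` of the prime field of `k` -/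
def ContainsSL {l : ℕ} {k : Type*} [Field k] [CharP k l] {Γ : Type*} [Group Γ]
    (ρ : Γ →* GL (Fin 2) k) : Prop :=
  ∃ h : GL (Fin 2) k, ∀ s : Matrix.SpecialLinearGroup (Fin 2) (ZMod l), ∃ y : Γ,
    (ρ y : Matrix (Fin 2) (Fin 2) k) = h * (s : Matrix (Fin 2) (Fin 2) (ZMod l)).map
      (ZMod.castHom (dvd_refl l) k) * ((h⁻¹ : GL (Fin 2) k) : Matrix (Fin 2) (Fin 2) k)

/-- the restriction of `ρ` to the subgroup `N` is irreducible and its image has an element of order
divisible by `l` -/
def LargeOn (l : ℕ) {k : Type*} [Field k] {Γ : Type*} [Group Γ] (ρ : Γ →* GL (Fin 2) k)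
    (N : Subgroup Γ) : Prop :=
  (∀ v : Fin 2 → k, v ≠ 0 → ∃ y : Γ, y ∈ N ∧ ∀ s : k,
    (ρ y : Matrix (Fin 2) (Fin 2) k).mulVec v ≠ s • v) ∧ ∃ y : Γ, y ∈ N ∧ l ∣ orderOf (ρ y)

/-- one member of the family -/
private theorem one (p : ℕ) [hp : Fact p.Prime]
    {E : Type*} [NontriviallyNormedField E] [IsUltrametricDist E] [ProperSpace E]
    [NormedAlgebra ℚ_[p] E] (n m : ℕ) :
    ∃ K C : ℕ, ∀ (G : Type) [Group G] [TopologicalSpace G] [IsTopologicalGroup G] [CompactSpace G]
        [TotallyDisconnectedSpace G] (V : G →* GL (Fin 2) E) (T : G →* GL (Fin n) E)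
        (M : Type) [Field M] [NumberField M] (ι : M →+* E), Continuous V →
        StronglyIrreducible V → Continuous T → Semisimple T → IdempotentGenerated p V T →
        Module.finrank ℚ M ≤ m →
        ∀ (l : ℕ) [Fact l.Prime] (k : Type) [Field k] [Finite k] [CharP k l] (φ : 𝓞 M →+* k),
        Function.Surjective φ → C < l →
        ∀ (ρ : G →* GL (Fin 2) k) (q : ℕ) (hlq : l ∣ q) (τ : G →* GL (Fin n) (ZMod q))
        (N : Subgroup G) (D : Set G) (c : ℝ) (f g : G → (𝓞 M)[X]), q ≠ 0 → ContainsSL (l := l) ρ →
        N.Normal → N ≤ V.ker → N ≤ T.ker →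
        (∀ U : Subgroup G, U.Normal → IsOpen (U : Set G) → N ≤ U → U.index ≤ K →
          ∀ y : G, ∃ r ∈ D, ∃ h : G, y⁻¹ * (h * r * h⁻¹) ∈ U) →
        (∀ r ∈ D, (V r : Matrix (Fin 2) (Fin 2) E).charpoly =
            (f r).map (ι.comp (algebraMap (𝓞 M) M)) ∧
          (T r : Matrix (Fin n) (Fin n) E).charpoly =
            (g r).map (ι.comp (algebraMap (𝓞 M) M)) ∧
          (ρ r : Matrix (Fin 2) (Fin 2) k).charpoly = (f r).map φ ∧
          (τ r : Matrix (Fin n) (Fin n) (ZMod q)).charpoly.map
            (ZMod.castHom hlq k) = (g r).map φ) →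
        (∀ r ∈ D, ∀ (σ : M →+* ℂ) (z : ℂ), (f r).eval₂ (σ.comp (algebraMap (𝓞 M) M)) z = 0 ∨
          (g r).eval₂ (σ.comp (algebraMap (𝓞 M) M)) z = 0 → ‖z‖ ≤ c) →
        (2 * c ^ 2) ^ (2 * n ^ 2 * Module.finrank ℚ M) < (Nat.card k : ℝ) →
        PotentiallyContained V T ∨ ∃ y ∈ τ.ker, ρ y ∉ UTF.scal k := by
  have hE0 : CharZero E := charZero_of_injective_algebraMap (algebraMap ℚ_[p] E).injective
  obtain ⟨C, hC⟩ := NLL.residual n m
  obtain ⟨P, hP, hPe, hPn⟩ := NLL.exists_wpoly E n
  obtain ⟨A, -, hA⟩ := exists_reps E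
  obtain ⟨d, hd⟩ : ∃ d, d = Module.finrank E
    (MvPolynomial.restrictTotalDegree ((Fin 2 × Fin 2) ⊕ (Σ _ : Unit, Fin n × Fin n)) E
      (4 * (n * n))) := ⟨_, rfl⟩
  refine ⟨(A.card ^ d).factorial, C + 2 * n.factorial + n + 5,
    fun G _ _ _ _ _ V T M _ _ ι hV hirr hT hss hid hm l hl k _ _ _ φ hφ hCl ρ q hlq τ N D c f g
      hq hρ hN hNV hNT hD hch hc hck => ?_⟩
  by_cases hker : ∀ y ∈ τ.ker, ρ y ∈ UTF.scal k
  swap
  · right
    push Not at hker
    exact hker
  left
  have hι : Function.Injective (ι.comp (algebraMap (𝓞 M) M)) :=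
    ι.injective.comp (FaithfulSMul.algebraMap_injective (𝓞 M) M)
  have hmonic : ∀ q : (𝓞 M)[X], (q.map (ι.comp (algebraMap (𝓞 M) M))).Monic → q.Monic :=
    fun q hq => monic_of_injective hι hq
  have hfm : ∀ r ∈ D, (f r).Monic := fun r hr =>
    hmonic _ (by rw [← (hch r hr).1]; exact Matrix.charpoly_monic _)
  have hgm : ∀ r ∈ D, (g r).Monic := fun r hr =>
    hmonic _ (by rw [← (hch r hr).2.1]; exact Matrix.charpoly_monic _)
  have hf2 : ∀ r ∈ D, (f r).natDegree = 2 := fun r hr => by
    rw [← natDegree_map_eq_of_injective hι, ← (hch r hr).1, Matrix.charpoly_natDegree_eq_dim,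
      Fintype.card_fin]
  have hgn : ∀ r ∈ D, (g r).natDegree = n := fun r hr => by
    rw [← natDegree_map_eq_of_injective hι, ← (hch r hr).2.1, Matrix.charpoly_natDegree_eq_dim,
      Fintype.card_fin]
  let _ : Algebra (ZMod l) k := ZMod.algebra k l
  -- the reduction of `τ` modulo `l`
  obtain ⟨τl, hτl⟩ : ∃ τl, τl = (UTF.redq l hlq).comp τ := ⟨_, rfl⟩
  have hkl : ∀ y, τl y = 1 → ∃ s : k, (ρ y : Matrix (Fin 2) (Fin 2) k) = s • 1 := by
    intro y hy
    refine UTF.reduce (by omega) (by omega) (by omega) ρ hρ hq hlq τ (fun y hy => hker y hy) y ?_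
    rw [hτl] at hy
    exact congrArg Units.val hy
  obtain ⟨hir, hord⟩ := UTF.irr_of_containsSL (l := l) ρ hρ
  -- the relation at the elements of `D`
  have hrel : ∀ r ∈ D, NLL.om n (f r) (g r) = 0 := by
    intro r hr
    have hres := hC l (by omega) k ((card_le φ hφ).trans (Nat.pow_le_pow_right hl.out.pos hm)) G ρ
      τl hkl hir hord r
    have h1 := NLL.om_map φ (f r) (g r) (hgm r hr) (ρ r : Matrix (Fin 2) (Fin 2) k)
      ((τl r : Matrix (Fin n) (Fin n) (ZMod l)).map (algebraMap (ZMod l) k)) (hch r hr).2.2.1 (by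
        rw [← (hch r hr).2.2.2, ← Matrix.charpoly_map, hτl]
        congr 1
        show ((τ r : Matrix (Fin n) (Fin n) (ZMod q)).map (ZMod.castHom hlq (ZMod l))).map
          (algebraMap (ZMod l) k) = _
        rw [Matrix.map_map]
        congr 1
        have h2 : (algebraMap (ZMod l) k).comp (ZMod.castHom hlq (ZMod l)) =
            ZMod.castHom hlq k := Subsingleton.elim _ _
        rw [← h2]
        rfl)
    rw [hres] at h1
    have hc0 : 0 ≤ c := by
      obtain ⟨σ⟩ : Nonempty (M →+* ℂ) := inferInstance
      have hdeg : ((f r).map (σ.comp (algebraMap (𝓞 M) M))).degree ≠ 0 := by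
        rw [degree_eq_natDegree ((hfm r hr).map _).ne_zero, (hfm r hr).natDegree_map,
          hf2 r hr]
        norm_num
      obtain ⟨w, hw⟩ := IsAlgClosed.exists_root _ hdeg
      rw [IsRoot, eval_map] at hw
      exact (norm_nonneg w).trans (hc r hr σ w (Or.inl hw))
    exact NLL.om_eq_zero (hfm r hr) (hgm r hr) (hf2 r hr) (hgn r hr) hc0
      (fun σ z hz => hc r hr σ z (Or.inl hz)) (fun σ z hz => hc r hr σ z (Or.inr hz))
      φ hφ h1.symm hck
  -- the relation on `G`
  obtain ⟨F, S, hS, hfr, hSF, hF⟩ := exists_polyfun (J := Unit) (n := fun _ => n)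
    (T := fun _ => T) hV (fun _ => hT) (4 * (n * n)) P hP
  have hF0 : ∀ y, F y = 0 := by
    refine UTF.det_rel A hA d N D hD F S (hd ▸ hfr) hSF (fun y ν hν => ?_) fun r hr h => ?_
    · rw [hF, hF]
      have e1 : V (y * ν) = V y := by
        rw [map_mul, MonoidHom.mem_ker.mp (hNV hν), mul_one]
      have e2 : T (y * ν) = T y := by
        rw [map_mul, MonoidHom.mem_ker.mp (hNT hν), mul_one]
      rw [e1, e2]
    · rw [hF, hPe]
      have e1 : (V (h * r * h⁻¹) : Matrix (Fin 2) (Fin 2) E).charpoly =
          (f r).map (ι.comp (algebraMap (𝓞 M) M)) := by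
        rw [← (hch r hr).1, map_mul, map_mul, map_inv, Units.val_mul, Units.val_mul,
          Matrix.coe_units_inv]
        exact Matrix.charpoly_units_conj (V h) _
      have e2 : (T (h * r * h⁻¹) : Matrix (Fin n) (Fin n) E).charpoly =
          (g r).map (ι.comp (algebraMap (𝓞 M) M)) := by
        rw [← (hch r hr).2.1, map_mul, map_mul, map_inv, Units.val_mul, Units.val_mul,
          Matrix.coe_units_inv]
        exact Matrix.charpoly_units_conj (T h) _
      rw [NLL.om_map (ι.comp (algebraMap (𝓞 M) M)) (f r) (g r) (hgm r hr) _ _ e1 e2, hrel r hr,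
        map_zero]
  -- conclusion
  let _ : MeasurableSpace G := borel G
  have : BorelSpace G := ⟨rfl⟩
  have hpr : PolynomiallyRelated (Measure.haar : Measure G) V (fun _ : Unit => T) := by
    refine ⟨P, fun h0 => ?_⟩
    have h1 : (Set.univ : Set G) ⊆ {g | MvPolynomial.eval (ent (V g : Matrix (Fin 2) (Fin 2) E)
        (fun _ : Unit => (T g : Matrix (Fin n) (Fin n) E))) P = 0 ∧
        ∃ x : Matrix (Fin 2) (Fin 2) E, x.det = (V g : Matrix (Fin 2) (Fin 2) E).det ∧
          MvPolynomial.eval (ent x (fun _ : Unit => (T g : Matrix (Fin n) (Fin n) E))) P ≠ 0} := by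
      intro y _
      exact ⟨by rw [← hF]; exact hF0 y, hPn (T y) (V y : Matrix (Fin 2) (Fin 2) E).det⟩
    have h2 := measure_mono_null h1 h0
    exact (isOpen_univ.measure_ne_zero _ Set.univ_nonempty) h2
  obtain ⟨j, hj⟩ := adOccurs_of_related p (Measure.haar : Measure G) V hV hirr
    (fun _ : Unit => n) (fun _ => T) (fun _ => hT) hpr
  exact contained_of_adOccurs p hV hirr hT hss hid hj

theorem result (p : ℕ) [hp : Fact p.Prime]
    -- the coefficient field, a finite extension of `ℚ_p`
    {E : Type*} [NontriviallyNormedField E] [IsUltrametricDist E] [ProperSpace E]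
    [NormedAlgebra ℚ_[p] E]
    -- bounds for the dimensions of the `T i` and for the degree of `M`
    (n m : ℕ) :
    ∃ K N₀ : ℕ,
      -- any profinite group, a strongly irreducible representation `V`
      ∀ (G : Type) [Group G] [TopologicalSpace G] [IsTopologicalGroup G] [CompactSpace G]
        [TotallyDisconnectedSpace G] (V : G →* GL (Fin 2) E), Continuous V →
        StronglyIrreducible V →
      -- a number field in `E` of degree at most `m`, ONE residue field `k` of large order
      ∀ (M : Type) [Field M] [NumberField M] (ι : M →+* E), Module.finrank ℚ M ≤ m →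
      ∀ (l : ℕ) [Fact l.Prime] (k : Type) [Field k] [Finite k] [CharP k l] (φ : 𝓞 M →+* k),
        Function.Surjective φ → N₀ < Nat.card k →
      -- a continuous representation over `k` with large image
      ∀ ρ : G →* GL (Fin 2) k, IsOpen (ρ.ker : Set G) → ContainsSL (l := l) ρ →
      -- ANY family of representations `T i` over `E` and `τ i` over `ZMod (q i)`, `l ∣ q i`
      ∀ (I : Type) (d q : I → ℕ) (hlq : ∀ i, l ∣ q i) (T : ∀ i, G →* GL (Fin (d i)) E)
        (τ : ∀ i, G →* GL (Fin (d i)) (ZMod (q i))), (∀ i, d i ≤ n) → (∀ i, q i ≠ 0) →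
        (∀ i, Continuous (T i)) → (∀ i, Semisimple (T i)) →
        (∀ i, IdempotentGenerated p V (T i)) → (∀ i, IsOpen ((τ i).ker : Set G)) →
      -- normal subgroups `N i` on which `V` and `T i` are trivial, subsets `D i` which meet every
      -- conjugacy class of every quotient of `G / N i` of order at most `K`
      ∀ (N : I → Subgroup G) (D : I → Set G), (∀ i, (N i).Normal) → (∀ i, N i ≤ V.ker) →
        (∀ i, N i ≤ (T i).ker) →
        (∀ i, ∀ U : Subgroup G, U.Normal → IsOpen (U : Set G) → N i ≤ U → U.index ≤ K →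
          ∀ y : G, ∃ r ∈ D i, ∃ h : G, y⁻¹ * (h * r * h⁻¹) ∈ U) →
      -- the characteristic polynomials at the elements of `D i`
      ∀ (f : G → (𝓞 M)[X]) (g : I → G → (𝓞 M)[X]),
        (∀ i, ∀ r ∈ D i, (V r : Matrix (Fin 2) (Fin 2) E).charpoly =
            (f r).map (ι.comp (algebraMap (𝓞 M) M)) ∧
          (T i r : Matrix (Fin (d i)) (Fin (d i)) E).charpoly =
            (g i r).map (ι.comp (algebraMap (𝓞 M) M)) ∧
          (ρ r : Matrix (Fin 2) (Fin 2) k).charpoly = (f r).map φ ∧
          (τ i r : Matrix (Fin (d i)) (Fin (d i)) (ZMod (q i))).charpoly.map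
            (ZMod.castHom (hlq i) k) = (g i r).map φ) →
      -- their complex roots are bounded, and the order of `k` is large
      ∀ c : I → ℝ, (∀ i, ∀ r ∈ D i, ∀ (σ : M →+* ℂ) (z : ℂ),
          (f r).eval₂ (σ.comp (algebraMap (𝓞 M) M)) z = 0 ∨
          (g i r).eval₂ (σ.comp (algebraMap (𝓞 M) M)) z = 0 → ‖z‖ ≤ c i) →
        (∀ i, (2 * c i ^ 2) ^ (2 * d i ^ 2 * Module.finrank ℚ M) < (Nat.card k : ℝ)) →
        (∃ i, PotentiallyContained V (T i)) ∨ LargeOn l ρ (⨅ i, (τ i).ker) := by
  classical
  choose K C h using fun d : ℕ => one p (E := E) d m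
  refine ⟨∑ d ∈ Finset.range (n + 1), K d, (5 + ∑ d ∈ Finset.range (n + 1), C d) ^ m,
    fun G _ _ _ _ _ V hV hirr M _ _ ι hm l hl k _ _ _ φ hφ hk ρ hρo hρ I d q hlq T τ hd hq hT hss
      hid hτ N D hN hNV hNT hD f g hch c hc hck => ?_⟩
  -- `l` is large
  have hCl : 5 + ∑ d ∈ Finset.range (n + 1), C d < l := by
    by_contra hcon
    push Not at hcon
    have h1 : Nat.card k ≤ l ^ Module.finrank ℚ M := card_le φ hφ
    have h2 : l ^ Module.finrank ℚ M ≤ l ^ m := Nat.pow_le_pow_right hl.out.pos hm
    have h3 : l ^ m ≤ (5 + ∑ d ∈ Finset.range (n + 1), C d) ^ m := Nat.pow_le_pow_left hcon m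
    omega
  have hmem : ∀ i, d i ∈ Finset.range (n + 1) := fun i =>
    Finset.mem_range.mpr (Nat.lt_succ_of_le (hd i))
  have h5 : 5 ≤ l := by omega
  by_cases hcon : ∃ i, PotentiallyContained V (T i)
  · exact Or.inl hcon
  right
  push Not at hcon
  have hns : ∀ i, ∃ y ∈ (τ i).ker, ρ y ∉ UTF.scal k := by
    intro i
    have hCi : C (d i) ≤ ∑ d ∈ Finset.range (n + 1), C d :=
      Finset.single_le_sum (f := C) (fun _ _ => Nat.zero_le _) (hmem i)
    have hKi : K (d i) ≤ ∑ d ∈ Finset.range (n + 1), K d :=
      Finset.single_le_sum (f := K) (fun _ _ => Nat.zero_le _) (hmem i)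
    rcases h (d i) G V (T i) M ι hV hirr (hT i) (hss i) (hid i) hm l k φ hφ (by omega) ρ (q i)
      (hlq i) (τ i) (N i) (D i) (c i) f (g i) (hq i) hρ (hN i) (hNV i) (hNT i)
      (fun U hU hUo hNU hUi => hD i U hU hUo hNU (hUi.trans hKi)) (hch i) (hc i) (hck i) with
      h1 | h1
    · exact absurd h1 (hcon i)
    · exact h1
  obtain ⟨y, hy, hys⟩ := UTF.iInf_not_scalar (l := l) h5 ρ hρo hρ (fun i => (τ i).ker)
    (fun i => inferInstance) (fun i => Subgroup.isClosed_of_isOpen _ (hτ i)) hns
  have hnorm : (⨅ i, (τ i).ker).Normal := Subgroup.normal_iInf_normal fun i => inferInstance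
  rcases UTF.scalar_or_big (l := l) h5 ρ hρ (⨅ i, (τ i).ker) with h1 | h1
  · exact absurd (h1 y hy) hys
  · exact h1

end Pool.Agent.Results.MP_6cbef8_nt.UniformTorsionFields
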